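import Pool.Agent.R461.UR.Main

/-! Bessel's inequality for averages over primes, without limits. -/

set_option autoImplicit false

namespace Pool.Agent.R461.ZF

open Complex Filter Topology ComplexConjugate NumberField IsDedekindDomain Asymptotics
  Pool.Agent.W401.Cheb Pool.Agent.W540.BE Pool.Agent.W353.L1 Polynomial
open Pool.Agent.H341R2 (lam lam_tendsto)

/-- **Bessel's inequality, abstract form.** -/
theorem bessel_gen {ι : Type} {l : Filter ι} {κ : Type} (S : Finset κ) {A : ι → ℝ}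
    {x : κ → ι → ℝ} {G : κ → κ → ι → ℝ}
    (hpos : ∀ᶠ i in l, ∀ c : κ → ℝ, 0 ≤ A i - 2 * (∑ k ∈ S, c k * x k i) +
      ∑ k ∈ S, ∑ k' ∈ S, c k * c k' * G k k' i)
    (hx : ∀ k ∈ S, ∃ B : ℝ, ∀ᶠ i in l, |x k i| ≤ B)
    (h0 : ∀ k ∈ S, ∀ k' ∈ S, k ≠ k' → Tendsto (G k k') l (𝓝 0)) {e : κ → ℝ}
    (he : ∀ k, 0 < e k) (h1 : ∀ k ∈ S, Tendsto (G k k) l (𝓝 (e k))) {η : ℝ} (hη : 0 < η) :
    ∀ᶠ i in l, ∑ k ∈ S, x k i ^ 2 / e k ≤ A i + η := by
  classical
  have hlim : Tendsto (fun i => ∑ k ∈ S, ∑ k' ∈ S, (x k i / e k) * (x k' i / e k') *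
      (G k k' i - if k = k' then e k else 0)) l (𝓝 0) := by
    have h2 : ∀ k ∈ S, ∀ k' ∈ S, Tendsto (fun i => (x k i / e k) * (x k' i / e k') *
        (G k k' i - if k = k' then e k else 0)) l (𝓝 0) := by
      intro k hk k' hk'
      have h3 : Tendsto (fun i => G k k' i - if k = k' then e k else 0) l (𝓝 0) := by
        by_cases hkk : k = k'
        · subst hkk
          simp only [if_true]
          have := (h1 k hk).sub_const (e k)
          rwa [sub_self] at this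
        · simp only [if_neg hkk, sub_zero]
          exact h0 k hk k' hk' hkk
      obtain ⟨B, hB⟩ := hx k hk
      obtain ⟨B', hB'⟩ := hx k' hk'
      have h4 := h3.abs.const_mul (B / e k * (B' / e k'))
      rw [abs_zero, mul_zero] at h4
      refine squeeze_zero_norm' ?_ h4
      filter_upwards [hB, hB'] with i g1 g2
      rw [Real.norm_eq_abs, abs_mul, abs_mul, abs_div, abs_div, abs_of_pos (he k),
        abs_of_pos (he k')]
      refine mul_le_mul_of_nonneg_right ?_ (abs_nonneg _)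
      have hB0 : 0 ≤ B := (abs_nonneg _).trans g1
      exact mul_le_mul (div_le_div_of_nonneg_right g1 (he k).le)
        (div_le_div_of_nonneg_right g2 (he k').le)
        (div_nonneg (abs_nonneg _) (he k').le) (div_nonneg hB0 (he k).le)
    have h5 := tendsto_finsetSum S fun k hk => tendsto_finsetSum S fun k' hk' => h2 k hk k' hk'
    simpa using h5
  filter_upwards [hpos, hlim.eventually_le_const hη] with i g1 g2
  have g3 := g1 fun k => x k i / e k
  have e1 : ∑ k ∈ S, ∑ k' ∈ S, (x k i / e k) * (x k' i / e k') *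
      (G k k' i - if k = k' then e k else 0) =
      (∑ k ∈ S, ∑ k' ∈ S, (x k i / e k) * (x k' i / e k') * G k k' i) -
        ∑ k ∈ S, x k i ^ 2 / e k := by
    rw [← Finset.sum_sub_distrib]
    refine Finset.sum_congr rfl fun k hk => ?_
    have e2 : ∑ k' ∈ S, (x k i / e k) * (x k' i / e k') * (G k k' i - if k = k' then e k else 0) =
        (∑ k' ∈ S, (x k i / e k) * (x k' i / e k') * G k k' i) -
          ∑ k' ∈ S, (if k = k' then x k i ^ 2 / e k else 0) := by
      rw [← Finset.sum_sub_distrib]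
      refine Finset.sum_congr rfl fun k' _ => ?_
      split_ifs with hkk
      · subst hkk
        have := (he k).ne'
        field_simp
      · ring
    rw [e2, Finset.sum_ite_eq, if_pos hk]
  have e3 : ∑ k ∈ S, (x k i / e k) * x k i = ∑ k ∈ S, x k i ^ 2 / e k :=
    Finset.sum_congr rfl fun k _ => by ring
  rw [e1] at g2
  rw [e3] at g3
  linarith

section
variable {K : Type} [Field K] [NumberField K]

/-- the expansion of the square -/
theorem EP_expand {κ : Type} (S : Finset κ) (t : HeightOneSpectrum (𝓞 K) → ℂ)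
    (u : κ → HeightOneSpectrum (𝓞 K) → ℂ) {b : ℝ} (hb0 : 0 ≤ b) (ht : ∀ v, ‖t v‖ ≤ b)
    {B : κ → ℝ} (hB0 : ∀ k, 0 ≤ B k) (hu : ∀ k v, ‖u k v‖ ≤ B k) (c : κ → ℝ) {ε : ℝ}
    (hε : 0 < ε) :
    EP (nm K) ε (fun v => ‖t v - ∑ k ∈ S, (c k : ℂ) * u k v‖ ^ 2) =
      EP (nm K) ε (fun v => ‖t v‖ ^ 2) -
        2 * (∑ k ∈ S, c k * EP (nm K) ε fun v => (t v * conj (u k v)).re) +
        ∑ k ∈ S, ∑ l ∈ S, c k * c l * EP (nm K) ε fun v => (u k v * conj (u l v)).re := by
  classical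
  have hN : NormSys (nm K) := normSys
  have hpt : ∀ v, ‖t v - ∑ k ∈ S, (c k : ℂ) * u k v‖ ^ 2 =
      ‖t v‖ ^ 2 + ((∑ k ∈ S, (-2 * c k) * (t v * conj (u k v)).re) +
        ∑ k ∈ S, ∑ l ∈ S, (c k * c l) * (u k v * conj (u l v)).re) := by
    intro v
    have e1 : ‖t v - ∑ k ∈ S, (c k : ℂ) * u k v‖ ^ 2 =
        ((t v - ∑ k ∈ S, (c k : ℂ) * u k v) * conj (t v - ∑ k ∈ S, (c k : ℂ) * u k v)).re := by
      rw [Complex.mul_conj, Complex.ofReal_re, Complex.normSq_eq_norm_sq]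
    have e2 : ‖t v‖ ^ 2 = (t v * conj (t v)).re := by
      rw [Complex.mul_conj, Complex.ofReal_re, Complex.normSq_eq_norm_sq]
    have e3 : ((∑ k ∈ S, (c k : ℂ) * u k v) * conj (t v)).re =
        (t v * conj (∑ k ∈ S, (c k : ℂ) * u k v)).re := by
      rw [← Complex.conj_re, map_mul, Complex.conj_conj, mul_comm]
    have e4 : (t v * conj (∑ k ∈ S, (c k : ℂ) * u k v)).re =
        ∑ k ∈ S, c k * (t v * conj (u k v)).re := by
      rw [map_sum, Finset.mul_sum, Complex.re_sum]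
      refine Finset.sum_congr rfl fun k _ => ?_
      rw [map_mul, Complex.conj_ofReal, mul_left_comm, Complex.re_ofReal_mul]
    have e5 : ((∑ k ∈ S, (c k : ℂ) * u k v) * conj (∑ k ∈ S, (c k : ℂ) * u k v)).re =
        ∑ k ∈ S, ∑ l ∈ S, (c k * c l) * (u k v * conj (u l v)).re := by
      rw [map_sum, Finset.sum_mul_sum, Complex.re_sum]
      refine Finset.sum_congr rfl fun k _ => ?_
      rw [Complex.re_sum]
      refine Finset.sum_congr rfl fun l _ => ?_
      rw [map_mul, Complex.conj_ofReal]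
      have : (c k : ℂ) * u k v * ((c l : ℂ) * conj (u l v)) =
          ((c k * c l : ℝ) : ℂ) * (u k v * conj (u l v)) := by
        push_cast; ring
      rw [this, Complex.re_ofReal_mul]
    have e6 : ∑ k ∈ S, (-2 * c k) * (t v * conj (u k v)).re =
        -2 * ∑ k ∈ S, c k * (t v * conj (u k v)).re := by
      rw [Finset.mul_sum]
      exact Finset.sum_congr rfl fun k _ => by ring
    rw [e1, map_sub, sub_mul, mul_sub, mul_sub, Complex.sub_re, Complex.sub_re, Complex.sub_re,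
      e3, e4, e5, e2, e6]
    ring
  have hbt : ∀ v, |‖t v‖ ^ 2| ≤ b ^ 2 := by
    intro v
    rw [abs_of_nonneg (sq_nonneg _)]
    exact pow_le_pow_left₀ (norm_nonneg _) (ht v) 2
  have hb1 : ∀ k v, |(-2 * c k) * (t v * conj (u k v)).re| ≤ |-2 * c k| * (b * B k) := by
    intro k v
    rw [abs_mul]
    refine mul_le_mul_of_nonneg_left ?_ (abs_nonneg _)
    refine (Complex.abs_re_le_norm _).trans ?_
    rw [norm_mul, Complex.norm_conj]
    exact mul_le_mul (ht v) (hu k v) (norm_nonneg _) hb0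
  have hb2 : ∀ k l v, |(c k * c l) * (u k v * conj (u l v)).re| ≤ |c k * c l| * (B k * B l) := by
    intro k l v
    rw [abs_mul]
    refine mul_le_mul_of_nonneg_left ?_ (abs_nonneg _)
    refine (Complex.abs_re_le_norm _).trans ?_
    rw [norm_mul, Complex.norm_conj]
    exact mul_le_mul (hu k v) (hu l v) (norm_nonneg _) (hB0 k)
  have hS2 : ∀ k v, |∑ l ∈ S, c k * c l * (u k v * conj (u l v)).re| ≤
      ∑ l ∈ S, |c k * c l| * (B k * B l) := fun k v =>
    (Finset.abs_sum_le_sum_abs _ _).trans (Finset.sum_le_sum fun l _ => hb2 k l v)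
  have s1 : ∀ v, |∑ k ∈ S, (-2 * c k) * (t v * conj (u k v)).re| ≤
      ∑ k ∈ S, |-2 * c k| * (b * B k) := fun v =>
    (Finset.abs_sum_le_sum_abs _ _).trans (Finset.sum_le_sum fun k _ => hb1 k v)
  have s2 : ∀ v, |∑ k ∈ S, ∑ l ∈ S, (c k * c l) * (u k v * conj (u l v)).re| ≤
      ∑ k ∈ S, ∑ l ∈ S, |c k * c l| * (B k * B l) := fun v =>
    (Finset.abs_sum_le_sum_abs _ _).trans (Finset.sum_le_sum fun k _ => hS2 k v)
  rw [funext hpt, EP_add hN hε hbt (B' := ∑ k ∈ S, |-2 * c k| * (b * B k) +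
    ∑ k ∈ S, ∑ l ∈ S, |c k * c l| * (B k * B l))
    (fun v => (abs_add_le _ _).trans (add_le_add (s1 v) (s2 v))), EP_add hN hε s1 s2,
    EP_sum hN hε S _ (fun k => |-2 * c k| * (b * B k)) (fun k _ v => hb1 k v),
    EP_sum hN hε S _ (fun k => ∑ l ∈ S, |c k * c l| * (B k * B l)) (fun k _ v => hS2 k v)]
  have f1 : (∑ k ∈ S, EP (nm K) ε fun v => (-2 * c k) * (t v * conj (u k v)).re) =
      -(2 * ∑ k ∈ S, c k * EP (nm K) ε fun v => (t v * conj (u k v)).re) := by
    rw [Finset.mul_sum, ← Finset.sum_neg_distrib]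
    refine Finset.sum_congr rfl fun k _ => ?_
    rw [EP_const_mul]
    ring
  have f2 : (∑ k ∈ S, EP (nm K) ε fun v => ∑ l ∈ S, c k * c l * (u k v * conj (u l v)).re) =
      ∑ k ∈ S, ∑ l ∈ S, c k * c l * EP (nm K) ε fun v => (u k v * conj (u l v)).re := by
    refine Finset.sum_congr rfl fun k _ => ?_
    rw [EP_sum hN hε S _ (fun l => |c k * c l| * (B k * B l)) (fun l _ v => hb2 k l v)]
    exact Finset.sum_congr rfl fun l _ => EP_const_mul _ _
  rw [f1, f2]
  ring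

/-- **Bessel's inequality at the edge.** -/
theorem bessel_edge {κ : Type} (S : Finset κ) {t : HeightOneSpectrum (𝓞 K) → ℂ}
    {u : κ → HeightOneSpectrum (𝓞 K) → ℂ} {b : ℝ} (hb0 : 0 ≤ b) (ht : ∀ v, ‖t v‖ ≤ b)
    {B : κ → ℝ} (hB0 : ∀ k, 0 ≤ B k) (hu : ∀ k v, ‖u k v‖ ≤ B k) {e : κ → ℝ}
    (he : ∀ k, 0 < e k)
    (h0 : ∀ k ∈ S, ∀ l ∈ S, k ≠ l → Tendsto (fun ε : ℝ =>
      (EP (nm K) ε fun v => (u k v * conj (u l v)).re) / lam ε) (𝓝[>] 0) (𝓝 0))
    (h1 : ∀ k ∈ S, Tendsto (fun ε : ℝ =>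
      (EP (nm K) ε fun v => (u k v * conj (u k v)).re) / lam ε) (𝓝[>] 0) (𝓝 (e k)))
    {y : κ → ℝ → ℝ} (hy : ∀ k ∈ S, Tendsto (fun ε : ℝ =>
      (EP (nm K) ε fun v => (t v * conj (u k v)).re) / lam ε - y k ε) (𝓝[>] 0) (𝓝 0))
    {η : ℝ} (hη : 0 < η) :
    ∀ᶠ ε : ℝ in 𝓝[>] 0, ∑ k ∈ S, y k ε ^ 2 / e k ≤
      (EP (nm K) ε fun v => ‖t v‖ ^ 2) / lam ε + η := by
  classical
  have hN : NormSys (nm K) := normSys
  have hpos : ∀ᶠ ε : ℝ in 𝓝[>] 0, ∀ c : κ → ℝ, 0 ≤ (EP (nm K) ε fun v => ‖t v‖ ^ 2) / lam ε -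
      2 * (∑ k ∈ S, c k * ((EP (nm K) ε fun v => (t v * conj (u k v)).re) / lam ε)) +
      ∑ k ∈ S, ∑ l ∈ S, c k * c l *
        ((EP (nm K) ε fun v => (u k v * conj (u l v)).re) / lam ε) := by
    filter_upwards [self_mem_nhdsWithin, lam_tendsto.eventually_gt_atTop 0] with ε hε hl c
    have hε : (0 : ℝ) < ε := hε
    have g1 : 0 ≤ EP (nm K) ε (fun v => ‖t v - ∑ k ∈ S, (c k : ℂ) * u k v‖ ^ 2) :=
      EP_nonneg fun v => sq_nonneg _
    rw [EP_expand S t u hb0 ht hB0 hu c hε] at g1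
    have g2 := div_nonneg g1 hl.le
    rw [add_div, sub_div] at g2
    refine g2.trans (le_of_eq ?_)
    congr 1
    · congr 1
      rw [mul_div_assoc, Finset.sum_div]
      congr 1
      exact Finset.sum_congr rfl fun k _ => mul_div_assoc _ _ _
    · rw [Finset.sum_div]
      refine Finset.sum_congr rfl fun k _ => ?_
      rw [Finset.sum_div]
      exact Finset.sum_congr rfl fun l _ => mul_div_assoc _ _ _
  have hbd : ∀ k ∈ S, ∃ C : ℝ, ∀ᶠ ε : ℝ in 𝓝[>] 0,
      |(EP (nm K) ε fun v => (t v * conj (u k v)).re) / lam ε| ≤ C := by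
    intro k _
    have hk : ∀ v, |(t v * conj (u k v)).re| ≤ b * B k := fun v => by
      refine (Complex.abs_re_le_norm _).trans ?_
      rw [norm_mul, Complex.norm_conj]
      exact mul_le_mul (ht v) (hu k v) (norm_nonneg _) hb0
    refine ⟨b * B k * 2, ?_⟩
    filter_upwards [self_mem_nhdsWithin, lam_tendsto.eventually_gt_atTop 0,
      (EP_one K).eventually_lt_const (by norm_num : (1 : ℝ) < 2)] with ε hε hl ho
    have hε : (0 : ℝ) < ε := hε
    have hC : 0 ≤ b * B k := mul_nonneg hb0 (hB0 k)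
    have g1 : |EP (nm K) ε fun v => (t v * conj (u k v)).re| ≤
        b * B k * EP (nm K) ε fun _ => 1 := by
      rw [← EP_const_mul]
      refine EP_abs_le (B := b * B k) (fun v => ?_) (fun v => ?_) hε
      · rw [mul_one, abs_of_nonneg hC]
      · rw [mul_one]
        exact hk v
    rw [abs_div, abs_of_pos hl, div_le_iff₀ hl]
    rw [div_lt_iff₀ hl] at ho
    refine g1.trans ?_
    rw [mul_assoc (b * B k) 2 (lam ε)]
    exact mul_le_mul_of_nonneg_left ho.le hC
  have hmain := bessel_gen S hpos hbd h0 he h1 (show 0 < η / 2 by positivity)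
  have hsq : Tendsto (fun ε : ℝ => ∑ k ∈ S, (y k ε ^ 2 / e k -
      ((EP (nm K) ε fun v => (t v * conj (u k v)).re) / lam ε) ^ 2 / e k)) (𝓝[>] 0) (𝓝 0) := by
    have h2 : ∀ k ∈ S, Tendsto (fun ε : ℝ => y k ε ^ 2 / e k -
        ((EP (nm K) ε fun v => (t v * conj (u k v)).re) / lam ε) ^ 2 / e k) (𝓝[>] 0) (𝓝 0) := by
      intro k hk
      set x : ℝ → ℝ := fun ε => (EP (nm K) ε fun v => (t v * conj (u k v)).re) / lam ε with hx
      obtain ⟨C, hC⟩ := hbd k hk
      have h3 : Tendsto (fun ε => x ε - y k ε) (𝓝[>] 0) (𝓝 0) := hy k hk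
      have h8 : Tendsto (fun ε => (x ε - y k ε) * x ε) (𝓝[>] 0) (𝓝 0) := by
        refine squeeze_zero_norm' (a := fun ε => |x ε - y k ε| * C) ?_ ?_
        · filter_upwards [hC] with ε hε
          rw [Real.norm_eq_abs, abs_mul]
          exact mul_le_mul_of_nonneg_left hε (abs_nonneg _)
        · have := h3.abs.mul_const C
          rwa [abs_zero, zero_mul] at this
      have h9 := ((h3.mul h3).sub (h8.const_mul 2)).div_const (e k)
      simp only [mul_zero, sub_zero, zero_div] at h9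
      refine h9.congr fun ε => ?_
      ring
    have h3 := tendsto_finsetSum S h2
    rwa [Finset.sum_const_zero] at h3
  filter_upwards [hmain, hsq.eventually_le_const (show (0 : ℝ) < η / 2 by positivity)] with
    ε g1 g2
  rw [Finset.sum_sub_distrib] at g2
  linarith

end

end Pool.Agent.R461.ZF
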