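import Pool.Agent.R461.ZF.Defs
import Pool.Agent.R461.ZF.Bessel

/-! The zeros and poles on the edge lines of the twists by a family. -/

set_option autoImplicit false

namespace Pool.Agent.R461.ZF

open Complex Filter Topology ComplexConjugate NumberField IsDedekindDomain Asymptotics
  Pool.Agent.W401.Cheb Pool.Agent.W540.BE Pool.Agent.W353.L1 Polynomial
open Pool.Agent.H341R2 (lam lam_tendsto)
open Pool.Agent.W353.EF (LFun)
open Pool.Agent.W353.EH (edgePoint size HasOrder)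
open Pool.Agent.W353.AT (IsArtin)
open Pool.Agent.R461.UR

section
variable {K : Type} [Field K] [NumberField K]
variable {σ : HeightOneSpectrum (𝓞 K) → GK K} (hσ : ∀ v, IsFrob v (σ v))

include hσ

theorem pairingAt_sz {P Q : Mot K} {τ : ℝ} {B : HeightOneSpectrum (𝓞 K) → ℂ[X]}
    (h : IsPairingAt P Q τ B) :
    Tendsto (fun ε : ℝ => (EP (nm K) ε fun v =>
      (loc P σ v * conj (loc Q σ v) * zz τ v).re) / lam ε - sizeT P Q τ B ε) (𝓝[>] 0) (𝓝 0) := by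
  obtain ⟨n, θ, h1, h2, h3⟩ := h
  obtain ⟨h4, h5⟩ := prod_size (P.cat Q) hσ θ h1 τ B h3
  refine h5.congr fun ε => ?_
  have e : (fun v => ((tT (P.cat Q) v : ℂ) * (θ.character (σ v)⁻¹ * zz τ v)).re) =
      fun v => (loc P σ v * conj (loc Q σ v) * zz τ v).re := by
    funext v
    rw [tT_cat, h2]
    unfold loc
    rw [map_mul, Complex.conj_ofReal]
    congr 1
    push_cast
    ring
  rw [e]
  rfl

theorem pairingSize_lim {P Q : Mot K} {τ x : ℝ} (h : PairingSize P Q τ x) :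
    Tendsto (fun ε : ℝ => (EP (nm K) ε fun v =>
      (loc P σ v * conj (loc Q σ v) * zz τ v).re) / lam ε) (𝓝[>] 0) (𝓝 x) := by
  obtain ⟨B, h1, h2⟩ := h
  have h3 := (pairingAt_sz hσ h1).add h2
  rw [zero_add] at h3
  exact h3.congr fun ε => by ring

omit hσ in
/-- the local term of a member of the family at a height -/
noncomputable def uu {β : Type} (P : β → Mot K) (σ : HeightOneSpectrum (𝓞 K) → GK K) (p : β × ℝ)
    (v : HeightOneSpectrum (𝓞 K)) : ℂ := conj (loc (P p.1) σ v * zz p.2 v)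

variable {β : Type} {P : β → Mot K} {e : β → ℝ}

omit hσ in
theorem norm_uu (p : β × ℝ) (v : HeightOneSpectrum (𝓞 K)) :
    ‖uu P σ p v‖ ≤ ((P p.1).dim : ℝ) := by
  unfold uu
  rw [Complex.norm_conj, norm_mul, norm_zz, mul_one]
  exact norm_loc _ _ _

omit hσ in
theorem uu_mul (p q : β × ℝ) (v : HeightOneSpectrum (𝓞 K)) :
    (uu P σ p v * conj (uu P σ q v)).re =
      (loc (P q.1) σ v * conj (loc (P p.1) σ v) * zz (q.2 - p.2) v).re := by
  unfold uu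
  rw [Complex.conj_conj, map_mul, conj_zz, sub_eq_add_neg, zz_add]
  congr 1
  ring

/-- the general inequality, for any bounded function of the primes -/
theorem main_gen (hP : IsOrthogonal P e) (S : Finset (β × ℝ))
    {t : HeightOneSpectrum (𝓞 K) → ℂ} {b : ℝ} (hb0 : 0 ≤ b) (ht : ∀ v, ‖t v‖ ≤ b)
    {y : β × ℝ → ℝ → ℝ} (hy : ∀ p ∈ S, Tendsto (fun ε : ℝ =>
      (EP (nm K) ε fun v => (t v * (loc (P p.1) σ v * zz p.2 v)).re) / lam ε - y p ε)
      (𝓝[>] 0) (𝓝 0)) {η : ℝ} (hη : 0 < η) :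
    ∀ᶠ ε : ℝ in 𝓝[>] 0, ∑ p ∈ S, y p ε ^ 2 / e p.1 ≤
      (EP (nm K) ε fun v => ‖t v‖ ^ 2) / lam ε + η := by
  refine bessel_edge S (u := uu P σ) hb0 ht (B := fun p => ((P p.1).dim : ℝ))
    (fun p => Nat.cast_nonneg _) (fun p v => norm_uu p v) (e := fun p => e p.1)
    (fun p => (hP.1 p.1).1) ?_ ?_ ?_ hη
  · intro p _ q _ hpq
    have hne : q.1 ≠ p.1 ∨ q.2 - p.2 ≠ 0 := by
      by_contra hcon
      push Not at hcon
      exact hpq (Prod.ext hcon.1.symm (by linarith [hcon.2]))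
    have h1 := pairingSize_lim hσ (hP.2 q.1 p.1 (q.2 - p.2) hne)
    refine h1.congr fun ε => ?_
    congr 2
    funext v
    exact (uu_mul p q v).symm
  · intro p _
    have h1 := pairingSize_lim hσ (hP.1 p.1).2
    refine h1.congr fun ε => ?_
    congr 2
    funext v
    rw [uu_mul p p v, sub_self]
  · intro p hp
    refine (hy p hp).congr fun ε => ?_
    unfold uu
    simp only [Complex.conj_conj]

theorem norm_sq_le (M : Mot K) {η : ℝ} (hη : 0 < η) : ∀ᶠ ε : ℝ in 𝓝[>] 0,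
    (EP (nm K) ε fun v => ‖loc M σ v‖ ^ 2) / lam ε ≤ (M.dim : ℝ) ^ 2 + η := by
  have h1 : Tendsto (fun ε : ℝ => (M.dim : ℝ) ^ 2 * ((EP (nm K) ε fun _ => 1) / lam ε))
      (𝓝[>] 0) (𝓝 ((M.dim : ℝ) ^ 2)) := by
    have := (EP_one K).const_mul ((M.dim : ℝ) ^ 2)
    rwa [mul_one] at this
  filter_upwards [h1.eventually_le_const (show (M.dim : ℝ) ^ 2 < (M.dim : ℝ) ^ 2 + η by linarith),
    self_mem_nhdsWithin, lam_tendsto.eventually_gt_atTop 0] with ε g1 hε hl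
  have hε : (0 : ℝ) < ε := hε
  refine le_trans ?_ g1
  rw [← mul_div_assoc]
  refine div_le_div_of_nonneg_right ?_ hl.le
  have hb : ∀ v, ‖loc M σ v‖ ^ 2 ≤ (M.dim : ℝ) ^ 2 := fun v =>
    pow_le_pow_left₀ (norm_nonneg _) (norm_loc M σ v) 2
  refine EP_le (B := (M.dim : ℝ) ^ 2) normSys hε (fun v => ?_) hb
  rw [abs_of_nonneg (sq_nonneg _)]
  exact hb v

/-- **The inequality for the sizes.** -/
theorem sizes (hP : IsOrthogonal P e) (M : Mot K) (S : Finset (β × ℝ))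
    {C : β × ℝ → HeightOneSpectrum (𝓞 K) → ℂ[X]} (hC : ∀ p ∈ S, IsTensor (P p.1) M p.2 (C p))
    {η : ℝ} (hη : 0 < η) :
    (∀ᶠ ε : ℝ in 𝓝[>] 0, ∑ p ∈ S, sizeT (P p.1) M p.2 (C p) ε ^ 2 / e p.1 ≤
      (M.dim : ℝ) ^ 2 + η) ∧
    ∀ D : HeightOneSpectrum (𝓞 K) → ℂ[X], IsPairing M M D → ∀ᶠ ε : ℝ in 𝓝[>] 0,
      ∑ p ∈ S, sizeT (P p.1) M p.2 (C p) ε ^ 2 / e p.1 ≤ sizeT M M 0 D ε + η := by
  have h1 := fun η' hη' => main_gen (e := e) hσ hP S (t := loc M σ) (b := (M.dim : ℝ))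
    (Nat.cast_nonneg _) (norm_loc M σ) (y := fun p => sizeT (P p.1) M p.2 (C p))
    (fun p hp => by
      refine (tensor_sz hσ (hC p hp)).2.congr fun ε => ?_
      congr 3
      funext v
      congr 1
      ring) (η := η') hη'
  refine ⟨?_, fun D hD => ?_⟩
  · filter_upwards [h1 (η / 2) (by positivity), norm_sq_le (σ := σ) hσ M
      (show 0 < η / 2 by positivity)] with ε g1 g2
    linarith
  · have h2 := (pairing_sz hσ hD).2
    filter_upwards [h1 (η / 2) (by positivity), h2.eventually_le_const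
      (show (0 : ℝ) < η / 2 by positivity)] with ε g1 g2
    have e1 : (fun v => (loc M σ v * conj (loc M σ v)).re) = fun v => ‖loc M σ v‖ ^ 2 := by
      funext v
      rw [Complex.mul_conj, Complex.ofReal_re, Complex.normSq_eq_norm_sq]
    rw [e1] at g2
    linarith

/-- **The inequality for the orders.** -/
theorem orders (hP : IsOrthogonal P e) (M : Mot K) (S : Finset (β × ℝ)) {m : β × ℝ → ℤ}
    (hm : ∀ p ∈ S, EdgeOrder (P p.1) M p.2 (m p)) :
    ∑ p ∈ S, (m p : ℝ) ^ 2 / e p.1 ≤ (M.dim : ℝ) ^ 2 ∧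
    ∀ k : ℤ, SquarePole M k → ∑ p ∈ S, (m p : ℝ) ^ 2 / e p.1 ≤ k := by
  classical
  have hex : ∀ p, ∃ C : HeightOneSpectrum (𝓞 K) → ℂ[X], p ∈ S →
      IsTensor (P p.1) M p.2 C ∧ OrderT (P p.1) M p.2 C (m p) := by
    intro p
    by_cases hp : p ∈ S
    · obtain ⟨C, h1, h2⟩ := hm p hp
      exact ⟨C, fun _ => ⟨h1, h2⟩⟩
    · exact ⟨fun _ => 0, fun h => absurd h hp⟩
  choose C hC using hex
  have hC1 : ∀ p ∈ S, IsTensor (P p.1) M p.2 (C p) := fun p hp => (hC p hp).1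
  have hlim : Tendsto (fun ε : ℝ => ∑ p ∈ S, sizeT (P p.1) M p.2 (C p) ε ^ 2 / e p.1) (𝓝[>] 0)
      (𝓝 (∑ p ∈ S, (m p : ℝ) ^ 2 / e p.1)) := by
    have h1 := tendsto_finsetSum S fun p hp =>
      ((size_of_order' (tensor_sz hσ (hC1 p hp)).1 (hC p hp).2).pow 2).div_const (e p.1)
    have e1 : ∑ p ∈ S, (m p : ℝ) ^ 2 / e p.1 = ∑ p ∈ S, (-(m p : ℝ)) ^ 2 / e p.1 :=
      Finset.sum_congr rfl fun p _ => by rw [neg_sq]
    rw [e1]
    exact h1
  refine ⟨?_, fun k hk => ?_⟩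
  · refine le_of_forall_pos_le_add fun η hη => ?_
    exact le_of_tendsto hlim (sizes hσ hP M S hC1 hη).1
  · obtain ⟨D, hD, hk⟩ := hk
    have h2 := size_of_order' (pairing_sz hσ hD).1 hk
    have h3 : Tendsto (sizeT M M 0 D) (𝓝[>] 0) (𝓝 (k : ℝ)) := by
      have e1 : (-((-k : ℤ) : ℝ)) = (k : ℝ) := by push_cast; ring
      rw [e1] at h2
      exact h2
    refine le_of_forall_pos_le_add fun η hη => ?_
    refine le_of_tendsto_of_tendsto hlim (h3.add_const η) ?_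
    exact (sizes hσ hP M S hC1 hη).2 D hD

/-- the number of the members with a zero or pole on the edge line -/
theorem members (hP : IsOrthogonal P e) (M : Mot K) {E : ℝ} (hE : 0 ≤ E) :
    {b : β | e b ≤ E ∧ ∃ (τ : ℝ) (m : ℤ), m ≠ 0 ∧ EdgeOrder (P b) M τ m}.Finite ∧
    ({b : β | e b ≤ E ∧ ∃ (τ : ℝ) (m : ℤ), m ≠ 0 ∧ EdgeOrder (P b) M τ m}.ncard : ℝ) ≤
      E * (M.dim : ℝ) ^ 2 := by
  classical
  set Z : Set β := {b : β | e b ≤ E ∧ ∃ (τ : ℝ) (m : ℤ), m ≠ 0 ∧ EdgeOrder (P b) M τ m} with hZ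
  have he : ∀ b, 0 < e b := fun b => (hP.1 b).1
  have hex : ∀ b, ∃ (τ : ℝ) (m : ℤ), b ∈ Z → m ≠ 0 ∧ EdgeOrder (P b) M τ m := by
    intro b
    by_cases hb : b ∈ Z
    · obtain ⟨-, τ, m, h1, h2⟩ := hb
      exact ⟨τ, m, fun _ => ⟨h1, h2⟩⟩
    · exact ⟨0, 0, fun h => absurd h hb⟩
  choose τ m hm using hex
  have key : ∀ T : Finset β, (T : Set β) ⊆ Z → (T.card : ℝ) ≤ E * (M.dim : ℝ) ^ 2 := by
    intro T hT
    have hinj : Function.Injective fun b : β => ((b, τ b) : β × ℝ) := by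
      intro b b' hbb
      exact (Prod.ext_iff.1 hbb).1
    have h1 := (orders hσ hP M (T.map ⟨fun b => ((b, τ b) : β × ℝ), hinj⟩)
      (m := fun p => m p.1) (fun p hp => by
        obtain ⟨b, hb, rfl⟩ := Finset.mem_map.1 hp
        exact (hm b (hT hb)).2)).1
    rw [Finset.sum_map] at h1
    simp only [Function.Embedding.coeFn_mk] at h1
    have h2 : ∀ b ∈ T, (1 : ℝ) ≤ E * ((m b : ℝ) ^ 2 / e b) := by
      intro b hb
      have h3 := hT hb
      have h4 : (m b : ℝ) ^ 2 ≥ 1 := by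
        have h5 : 1 ≤ |m b| := Int.one_le_abs (hm b h3).1
        have h6 : (1 : ℝ) ≤ |(m b : ℝ)| := by exact_mod_cast h5
        rw [← sq_abs]
        exact one_le_pow₀ h6
      have h7 : e b ≤ E := h3.1
      rw [← mul_div_assoc, le_div_iff₀ (he b), one_mul]
      calc e b ≤ E * 1 := by rw [mul_one]; exact h7
        _ ≤ E * (m b : ℝ) ^ 2 := mul_le_mul_of_nonneg_left h4 hE
    calc (T.card : ℝ) = ∑ _b ∈ T, (1 : ℝ) := by rw [Finset.sum_const, nsmul_eq_mul, mul_one]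
      _ ≤ ∑ b ∈ T, E * ((m b : ℝ) ^ 2 / e b) := Finset.sum_le_sum h2
      _ = E * ∑ b ∈ T, (m b : ℝ) ^ 2 / e b := by rw [Finset.mul_sum]
      _ ≤ E * (M.dim : ℝ) ^ 2 := mul_le_mul_of_nonneg_left h1 hE
  have hfin : Z.Finite := by
    by_contra hinf
    have hinf' : Z.Infinite := hinf
    obtain ⟨n, hn⟩ := exists_nat_gt (E * (M.dim : ℝ) ^ 2)
    obtain ⟨T, hT, hcard⟩ := hinf'.exists_subset_card_eq n
    have h1 := key T hT
    rw [hcard] at h1
    linarith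
  refine ⟨hfin, ?_⟩
  have h1 := key hfin.toFinset (by rw [Set.Finite.coe_toFinset])
  rwa [← Set.ncard_eq_toFinset_card Z hfin] at h1

end

end Pool.Agent.R461.ZF
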