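import Pool.Agent.R461.UR.Defs

/-!
# Families of cohomology groups with orthogonal traces: definitions

`Mot K`, `IsSystem`, `IsTensor`, `IsPairing`, `sizeT`, `OrderT` are defined in `Pool.Agent.R461.UR.Defs`.
-/

set_option autoImplicit false

namespace Pool.Agent.R461.ZF

open NumberField IsDedekindDomain Filter Topology Polynomial ComplexConjugate
open Pool.Agent.W353.AT (IsArtin)
open Pool.Agent.R461.UR

section
variable {K : Type} [Field K] [NumberField K]

/-- The polynomials `B v` are the Euler factors of `L(P ⊗ Q', s)` at the point `w/2 + 1 + iτ` of the edge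
line, where `Q'` is `Q` with the dual Artin representation; it is the dual of `Q` up to a Tate
twist. -/
def IsPairingAt (P Q : Mot K) (τ : ℝ) (B : HeightOneSpectrum (𝓞 K) → ℂ[X]) : Prop :=
  ∃ (n : ℕ) (θ : Representation ℂ Gal(AlgebraicClosure K/K) (Fin n → ℂ)), IsArtin θ ∧
    (∀ g, θ.character g = P.ψ.character g * conj (Q.ψ.character g)) ∧
    IsSystem (P.cat Q) θ τ B

/-- `log |L(s_τ + ε)| / log(1/ε)` tends to `x` as `ε → 0+`, for the function `L(P ⊗ Q', s)` and the point
`s_τ` of its edge line.  If there is a meromorphic continuation to a neighbourhood of `s_τ`, this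
says that the order at `s_τ` is `-x`. -/
def PairingSize (P Q : Mot K) (τ x : ℝ) : Prop :=
  ∃ B : HeightOneSpectrum (𝓞 K) → ℂ[X], IsPairingAt P Q τ B ∧
    Tendsto (sizeT P Q τ B) (𝓝[>] 0) (𝓝 x)

/-- The functions `L(P_a ⊗ P_b', s)`, for all members `a` and `b` of the family, have no zeros and no
poles on their edge lines, except for the poles of order `e b > 0` of the functions `L(P_b ⊗ P_b', s)`
at the real points of their edge lines; this is expressed by `PairingSize`. -/
def IsOrthogonal {β : Type} (P : β → Mot K) (e : β → ℝ) : Prop :=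
  (∀ b, 0 < e b ∧ PairingSize (P b) (P b) 0 (e b)) ∧
  ∀ b b' τ, b ≠ b' ∨ τ ≠ 0 → PairingSize (P b) (P b') τ 0

/-- The Euler product `L(P ⊗ M, s)` has a meromorphic continuation to a neighbourhood of the point
`w/2 + 1 + iτ` of its edge line, of order `m` there (a zero if `m > 0`, a pole if `m < 0`). -/
def EdgeOrder (P M : Mot K) (τ : ℝ) (m : ℤ) : Prop :=
  ∃ C : HeightOneSpectrum (𝓞 K) → ℂ[X], IsTensor P M τ C ∧ OrderT P M τ C m

/-- The Euler product `L(M ⊗ M', s)` has a meromorphic continuation to a neighbourhood of the real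
point of its edge line, with a pole of order `k` there. -/
def SquarePole (M : Mot K) (k : ℤ) : Prop :=
  ∃ D : HeightOneSpectrum (𝓞 K) → ℂ[X], IsPairing M M D ∧ OrderT M M 0 D (-k)

end

end Pool.Agent.R461.ZF
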